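import Mathlib
import Pool.Agent.TH789.MT.Final

/-!
MP_ebd556_mp, Q1 (proved): for every `n` there is a constant `c = c_n > 0`, independent of the
dimension `d`, such that `L(A_1, ..., A_n) ≥ c R(A_1, ..., A_n)` for all positive `d × d` matrices.

Method. Let `Q_i^m` be the spectral projection of `A_i` for the interval `[Λ R^{-m}, ∞)`. Level by
level we extend mutually orthogonal projections `W_i^{m-1}` to mutually orthogonal projections
`W_i^m` which are close to `Q_i^m` in the Hilbert-Schmidt norm: the squared distance `D_m` satisfies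
`D_m ≤ K (D_{m-1} + ∑_{i≠j} Tr Q_i^m Q_j^m)` with `K` depending on `n` only. With `R = 2K` the
weighted sum `∑ R^{-m} D_m` is bounded by the weighted sum of the overlaps, which is bounded by the
pairwise quantities `Tr(A_i + A_j) - ‖A_i - A_j‖₁`. The projective measurement `W_i` obtained at the
end satisfies `∑ Tr A_i (1 - W_i) ≤ - c R(A)`, and `L(A) ≥ - ∑ Tr A_i (1 - W_i)`.
-/

set_option autoImplicit false

namespace Pool.Agent.Results.MP_ebd556_mp.MultivariateTrace

open Matrix
open scoped ComplexOrder MatrixOrder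

/-- The trace norm `‖X‖₁ = Tr √(X* X)`. -/
noncomputable def traceNorm {d : ℕ} (X : Matrix (Fin d) (Fin d) ℂ) : ℝ :=
  (CFC.sqrt (Xᴴ * X)).trace.re

/-- `L(A_1, ..., A_n) = Tr √(∑ A_j²) - ∑ Tr A_j`. -/
noncomputable def L {n d : ℕ} (A : Fin n → Matrix (Fin d) (Fin d) ℂ) : ℝ :=
  (CFC.sqrt (∑ j, A j ^ 2)).trace.re - ∑ j, (A j).trace.re

/-- `R(A_1, ..., A_n) = ∑_{j < k} (‖A_j - A_k‖₁ - Tr (A_j + A_k))`. -/
noncomputable def R {n d : ℕ} (A : Fin n → Matrix (Fin d) (Fin d) ℂ) : ℝ :=
  ∑ p ∈ Finset.univ.filter (fun p : Fin n × Fin n => p.1 < p.2),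
    (traceNorm (A p.1 - A p.2) - (A p.1 + A p.2).trace.re)

/-- For every `n` there is a constant `c > 0` such that `L(A_1, ..., A_n) ≥ c R(A_1, ..., A_n)` for
every dimension `d ≥ 1` and all positive semidefinite `d × d` matrices `A_1, ..., A_n`. -/
theorem result (n : ℕ) : ∃ c : ℝ, 0 < c ∧ ∀ d : ℕ, 1 ≤ d →
    ∀ A : Fin n → Matrix (Fin d) (Fin d) ℂ, (∀ j, (A j).PosSemidef) → c * R A ≤ L A := by
  have hK : (1 : ℝ) ≤ TH789.MT.Kc (Fintype.card (Fin n)) := TH789.MT.Kc_ge _
  refine ⟨8 * TH789.MT.Kc (Fintype.card (Fin n)) ^ 2, by positivity, fun d _ A hA => ?_⟩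
  have h := TH789.MT.main A hA (Finset.univ.filter (fun p : Fin n × Fin n => p.1 < p.2))
    (fun i j hij => by
      rcases lt_or_gt_of_ne hij with h | h
      · left; simpa using h
      · right; simpa using h)
  have e1 : ∑ i, A i * A i = ∑ i, A i ^ 2 := Finset.sum_congr rfl fun i _ => (pow_two _).symm
  rw [e1] at h
  have e2 : R A = - ∑ p ∈ Finset.univ.filter (fun p : Fin n × Fin n => p.1 < p.2),
      (TH789.MT.tau (A p.1 + A p.2) - TH789.MT.traceNorm (A p.1 - A p.2)) := by
    unfold R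
    rw [← Finset.sum_neg_distrib]
    refine Finset.sum_congr rfl fun p _ => ?_
    unfold traceNorm TH789.MT.tau TH789.MT.traceNorm
    ring
  have e3 : L A = -(∑ i, TH789.MT.tau (A i) - TH789.MT.tau (CFC.sqrt (∑ i, A i ^ 2))) := by
    unfold L TH789.MT.tau
    ring
  rw [e2, e3]
  linarith

end Pool.Agent.Results.MP_ebd556_mp.MultivariateTrace
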